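import Mathlib
import Pool.Agent.H74.CD.Main

set_option autoImplicit false

namespace Pool.Agent.Results.MP_845814_an.CircularSets

open MeasureTheory Metric

/-- `ℂ^n` -/
abbrev Cn (n : ℕ) := EuclideanSpace ℂ (Fin n)

/-- the ball algebra -/
def BallAlgebra {n : ℕ} (f : Cn n → ℂ) : Prop :=
  ContinuousOn f (closedBall (0 : Cn n) 1) ∧ DifferentiableOn ℂ f (ball (0 : Cn n) 1)

/-- `|f| = |g| ≠ 0` at the point `x` -/
def Good {n : ℕ} (f g : Cn n → ℂ) (x : Cn n) : Prop := ‖f x‖ = ‖g x‖ ∧ f x ≠ 0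

/-- all points of the sphere on the complex line `z + ℂ v` are good -/
def GoodLine {n : ℕ} (f g : Cn n → ℂ) (z v : Cn n) : Prop :=
  ∀ s : ℂ, ‖z + s • v‖ = 1 → Good f g (z + s • v)

/-- case (1): a complex subspace `K ≠ 0` and a set `E` of positive (outer) measure in the sphere such that for every
`ζ = p + q` in `E`, `p ∈ K`, `q ∈ Kᗮ`, all points `t p + q`, `|t| = 1`, are good (for `K = ⊤`: `|f| = |g| ≠ 0` on a circular set
of positive measure) -/
def CircularCase {n : ℕ} (f g : Cn n → ℂ) : Prop :=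
  ∃ (K : Submodule ℂ (Cn n)) (E : Set (sphere (0 : Cn n) 1)),
    K ≠ ⊥ ∧ (volume : Measure (Cn n)).toSphere E ≠ 0 ∧
    ∀ ζ ∈ E, ∀ p ∈ K, ∀ q ∈ Kᗮ, (ζ : Cn n) = p + q → ∀ t : ℂ, ‖t‖ = 1 → Good f g (t • p + q)

/-- case (2): a complex affine map `z ↦ L z + b` such that the set of all `z` in the ball with `v = L z + b ≠ 0` and good
complex line `z + ℂ v` has positive (outer) volume -/
def AffineCase {n : ℕ} (f g : Cn n → ℂ) : Prop :=
  ∃ (L : Cn n →L[ℂ] Cn n) (b : Cn n),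
    (volume : Measure (Cn n)) {z | z ∈ ball (0 : Cn n) 1 ∧ L z + b ≠ 0 ∧ GoodLine f g z (L z + b)} ≠ 0

/-- case (3): the set of all `(z, v)`, `z` in the ball, `v ≠ 0`, with good complex line `z + ℂ v` has positive volume -/
def LineCase {n : ℕ} (f g : Cn n → ℂ) : Prop :=
  (volume : Measure (Cn n × Cn n)) {p | p.1 ∈ ball (0 : Cn n) 1 ∧ p.2 ≠ 0 ∧ GoodLine f g p.1 p.2} ≠ 0

/-- Let `n ≥ 2` and let `f`, `g` be in the ball algebra. Then `f = c g` on the closed ball in each of the cases (1), (2), (3). -/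
theorem result (n : ℕ) (hn : 2 ≤ n) (f g : Cn n → ℂ) (hf : BallAlgebra f) (hg : BallAlgebra g)
    (h : CircularCase f g ∨ AffineCase f g ∨ LineCase f g) :
    ∃ c : ℂ, ∀ z ∈ closedBall (0 : Cn n) 1, f z = c * g z := by
  rcases h with ⟨K, E, hK, hE, h⟩ | ⟨L, b, h⟩ | h
  · exact Pool.Agent.H74.CD.part1 hn f g hf.1 hf.2 hg.1 hg.2 K hK E hE h
  · exact Pool.Agent.H74.CD.final_line hn f g hf.1 hf.2 hg.1 hg.2 L b h
  · exact Pool.Agent.H74.CD.part3 hn f g hf.1 hf.2 hg.1 hg.2 h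

end Pool.Agent.Results.MP_845814_an.CircularSets
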