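import Pool.Agent.H44.LP.HiL

/-!
# MP_845814_an: equal moduli on a set of positive measure near which the functions are tangentially smooth
-/

set_option autoImplicit false

namespace Pool.Agent.Results.MP_845814_an.LipschitzPairs

open MeasureTheory Metric

/-- `ℂ^n` -/
abbrev Cn (n : ℕ) := EuclideanSpace ℂ (Fin n)

/-- `f` is holomorphic in the open ball and continuous on `closedBall 0 1 ∩ Ω`. For `Ω = univ` this is the ball algebra `A(B_n)`. -/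
def HolCont {n : ℕ} (Ω : Set (Cn n)) (f : Cn n → ℂ) : Prop :=
  DifferentiableOn ℂ f (ball (0 : Cn n) 1) ∧ ContinuousOn f (closedBall (0 : Cn n) 1 ∩ Ω)

/-- The complex tangential derivatives `z ↦ f'(z) (conj (z i) e_j - conj (z j) e_i)`, `i ≠ j`, extend continuously from
`ball 0 1 ∩ Ω` to `closedBall 0 1 ∩ Ω`. -/
def TangC1 {n : ℕ} (Ω : Set (Cn n)) (f : Cn n → ℂ) : Prop :=
  ∀ i j : Fin n, i ≠ j → ∃ h : Cn n → ℂ, ContinuousOn h (closedBall (0 : Cn n) 1 ∩ Ω) ∧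
    ∀ z ∈ ball (0 : Cn n) 1 ∩ Ω, h z = fderiv ℂ f z
      (EuclideanSpace.single j ((starRingEnd ℂ) (z i)) - EuclideanSpace.single i ((starRingEnd ℂ) (z j)))

/-- `{ζ ∈ S ∩ Ω : |f(ζ)| = |g(ζ)|}` has positive surface measure. -/
def PosEqual {n : ℕ} (Ω : Set (Cn n)) (f g : Cn n → ℂ) : Prop :=
  (volume : Measure (Cn n)).toSphere {ζ : sphere (0 : Cn n) 1 | (ζ : Cn n) ∈ Ω ∧ ‖f ζ‖ = ‖g ζ‖} ≠ 0

theorem result (n : ℕ) (hn : 2 ≤ n) (Ω : Set (Cn n)) (hΩ : IsOpen Ω) :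
    (∀ f g : Cn n → ℂ, HolCont Ω f → HolCont Ω g → TangC1 Ω f → TangC1 Ω g → PosEqual Ω f g →
      ∃ c : ℂ, ∀ z ∈ ball (0 : Cn n) 1, f z = c * g z) ∧
    (∀ f g : Cn n → ℂ, HolCont Set.univ f → HolCont Set.univ g → TangC1 Ω f → TangC1 Ω g → PosEqual Ω f g →
      ∃ c : ℂ, ∀ z ∈ closedBall (0 : Cn n) 1, f z = c * g z) ∧
    (∀ f : Cn n → ℂ, DifferentiableOn ℂ f (ball (0 : Cn n) 1) → ∀ a C : ℝ, 1 / 2 < a →
      (∀ z ∈ ball (0 : Cn n) 1 ∩ Ω, ∀ w ∈ ball (0 : Cn n) 1 ∩ Ω, ‖f z - f w‖ ≤ C * ‖z - w‖ ^ a) → TangC1 Ω f) ∧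
    (∀ f : Cn n → ℂ, DifferentiableOn ℂ f (ball (0 : Cn n) 1) →
      ContDiffOn ℝ 1 f (closedBall (0 : Cn n) 1 ∩ Ω) → TangC1 Ω f) := by
  have h1 : ∀ f g : Cn n → ℂ, HolCont Ω f → HolCont Ω g → TangC1 Ω f → TangC1 Ω g → PosEqual Ω f g →
      ∃ c : ℂ, ∀ z ∈ ball (0 : Cn n) 1, f z = c * g z := by
    intro f g hf hg hTf hTg hE
    exact Pool.Agent.H44.LP.mainL hn Ω hΩ f g hf.2 hf.1 hg.2 hg.1 hTf hTg hE
  refine ⟨h1, ?_, ?_, ?_⟩
  · intro f g hf hg hTf hTg hE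
    have hf2 : ContinuousOn f (closedBall (0 : Cn n) 1) := by
      have := hf.2; rwa [Set.inter_univ] at this
    have hg2 : ContinuousOn g (closedBall (0 : Cn n) 1) := by
      have := hg.2; rwa [Set.inter_univ] at this
    obtain ⟨c, hc⟩ := h1 f g ⟨hf.1, hf2.mono Set.inter_subset_left⟩ ⟨hg.1, hg2.mono Set.inter_subset_left⟩ hTf hTg hE
    exact ⟨c, Pool.Agent.H44.SP.closure_eq f (fun z => c * g z) hf2 (continuousOn_const.mul hg2) hc⟩
  · intro f hf a C ha h i j hij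
    exact Pool.Agent.H44.LP.lip_ext_loc Ω hΩ i j hij f hf a C ha h
  · intro f hf hd i j hij
    have hconv : UniqueDiffOn ℝ (closedBall (0 : Cn n) 1) := by
      refine uniqueDiffOn_convex (convex_closedBall (0 : Cn n) 1) ⟨0, ?_⟩
      exact mem_interior_iff_mem_nhds.mpr (closedBall_mem_nhds _ one_pos)
    have hu : UniqueDiffOn ℝ (closedBall (0 : Cn n) 1 ∩ Ω) := hconv.inter hΩ
    refine ⟨fun z => fderivWithin ℝ f (closedBall (0 : Cn n) 1 ∩ Ω) z (Pool.Agent.H44.SP.jj i j z), ?_, ?_⟩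
    · exact (hd.continuousOn_fderivWithin hu le_rfl).clm_apply (Pool.Agent.H44.SP.continuous_jj i j).continuousOn
    · intro z hz
      have hn1 : closedBall (0 : Cn n) 1 ∩ Ω ∈ nhds z :=
        Filter.inter_mem (Filter.mem_of_superset (isOpen_ball.mem_nhds hz.1) ball_subset_closedBall) (hΩ.mem_nhds hz.2)
      have h2 : HasFDerivAt f (fderiv ℂ f z) z := (hf.differentiableAt (isOpen_ball.mem_nhds hz.1)).hasFDerivAt
      have h3 : fderivWithin ℝ f (closedBall (0 : Cn n) 1 ∩ Ω) z = (fderiv ℂ f z).restrictScalars ℝ := by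
        rw [fderivWithin_of_mem_nhds hn1]
        exact (h2.restrictScalars ℝ).fderiv
      show fderivWithin ℝ f (closedBall (0 : Cn n) 1 ∩ Ω) z (Pool.Agent.H44.SP.jj i j z) = _
      rw [h3]
      rfl

end Pool.Agent.Results.MP_845814_an.LipschitzPairs
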